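import Pool.Agent.H85.AK.Stmt

/-!
Sharpness of the bound for almost symmetries (helper339), for the project AK of helper85.
-/

set_option autoImplicit false

namespace Pool.Agent.H339.AKSharp

open scoped Pointwise
open Finset Filter Topology
open Pool.Agent.H85.AK.Stmt

lemma mem_digs {r : ℂ} {D n : ℕ} {z : ℂ} : z ∈ digs r D n ↔
    ∃ a : ℕ → ℕ, (∀ j, j < n → a j < D) ∧ ∑ j ∈ range n, ((a j : ℕ) : ℂ) * r ^ j = z := by
  unfold digs
  rw [mem_image]
  constructor
  · rintro ⟨a, -, rfl⟩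
    refine ⟨fun j => if h : j < n then (a ⟨j, h⟩ : ℕ) else 0, ?_, ?_⟩
    · intro j hj
      simp only [hj, dif_pos]
      exact (a ⟨j, hj⟩).2
    · rw [← Fin.sum_univ_eq_sum_range
        (fun j => (((if h : j < n then (a ⟨j, h⟩ : ℕ) else 0 : ℕ)) : ℂ) * r ^ j)]
      refine Finset.sum_congr rfl fun j _ => ?_
      simp
  · rintro ⟨a, ha, rfl⟩
    refine ⟨fun j => ⟨a j, ha j j.2⟩, mem_univ _, ?_⟩
    exact Fin.sum_univ_eq_sum_range (fun j => ((a j : ℕ) : ℂ) * r ^ j) n

lemma card_digs_le (r : ℂ) (D n : ℕ) : (digs r D n).card ≤ D ^ n := by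
  unfold digs
  refine card_image_le.trans ?_
  simp

lemma zero_mem_digs (r : ℂ) {D : ℕ} (hD : 0 < D) (n : ℕ) : (0 : ℂ) ∈ digs r D n := by
  rw [mem_digs]
  exact ⟨fun _ => 0, fun _ _ => hD, by simp⟩

lemma card_digs_pos (r : ℂ) {D : ℕ} (hD : 0 < D) (n : ℕ) : 0 < (digs r D n).card :=
  card_pos.2 ⟨0, zero_mem_digs r hD n⟩

lemma digs_mono_D (r : ℂ) {D D' : ℕ} (h : D ≤ D') (n : ℕ) : digs r D n ⊆ digs r D' n := by
  intro z hz
  rw [mem_digs] at hz ⊢
  obtain ⟨a, ha, rfl⟩ := hz
  exact ⟨a, fun j hj => (ha j hj).trans_le h, rfl⟩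

lemma card_digs_add (r : ℂ) (D n m : ℕ) :
    (digs r D (n + m)).card ≤ (digs r D n).card * (digs r D m).card := by
  have h : digs r D (n + m) ⊆
      (digs r D n ×ˢ digs r D m).image (fun p => p.1 + r ^ n * p.2) := by
    intro z hz
    rw [mem_digs] at hz
    obtain ⟨a, ha, rfl⟩ := hz
    rw [mem_image]
    refine ⟨(∑ j ∈ range n, ((a j : ℕ) : ℂ) * r ^ j,
      ∑ j ∈ range m, ((a (n + j) : ℕ) : ℂ) * r ^ j), ?_, ?_⟩
    · rw [mem_product]
      exact ⟨mem_digs.2 ⟨a, fun j hj => ha j (by omega), rfl⟩,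
        mem_digs.2 ⟨fun j => a (n + j), fun j hj => ha _ (by omega), rfl⟩⟩
    · simp only
      rw [Finset.sum_range_add, Finset.mul_sum]
      congr 1
      refine Finset.sum_congr rfl fun j _ => ?_
      rw [pow_add]; ring
  refine (card_le_card h).trans (card_image_le.trans ?_)
  rw [card_product]

lemma shift_digs (r : ℂ) {D : ℕ} (hD : 0 < D) {n m i : ℕ} (hi : i ≤ m) {z : ℂ}
    (hz : z ∈ digs r D n) : r ^ i * z ∈ digs r D (n + m) := by
  rw [mem_digs] at hz ⊢
  obtain ⟨a, ha, rfl⟩ := hz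
  refine ⟨fun j => if i ≤ j ∧ j < i + n then a (j - i) else 0, ?_, ?_⟩
  · intro j _
    simp only
    split_ifs with h
    · exact ha _ (by omega)
    · exact hD
  · have e1 : n + m = i + (n + (m - i)) := by omega
    rw [e1, Finset.sum_range_add, Finset.sum_range_add]
    have e2 : ∑ j ∈ range i, (((if i ≤ j ∧ j < i + n then a (j - i) else 0 : ℕ)) : ℂ) * r ^ j = 0 := by
      refine Finset.sum_eq_zero fun j hj => ?_
      rw [mem_range] at hj
      rw [if_neg (by omega)]
      simp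
    have e3 : ∑ j ∈ range (m - i), (((if i ≤ i + (n + j) ∧ i + (n + j) < i + n then
        a (i + (n + j) - i) else 0 : ℕ)) : ℂ) * r ^ (i + (n + j)) = 0 := by
      refine Finset.sum_eq_zero fun j hj => ?_
      rw [if_neg (by omega)]
      simp
    rw [e2, e3, zero_add, add_zero, Finset.mul_sum]
    refine Finset.sum_congr rfl fun j hj => ?_
    rw [mem_range] at hj
    have e4 : (if i ≤ i + j ∧ i + j < i + n then a (i + j - i) else 0) = a j := by
      rw [if_pos (by omega), Nat.add_sub_cancel_left]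
    simp only [e4, pow_add]
    ring

lemma add_digs (r : ℂ) {D n : ℕ} {z w : ℂ} (hz : z ∈ digs r D n) (hw : w ∈ digs r D n) :
    z + w ∈ digs r (2 * D) n := by
  rw [mem_digs] at hz hw ⊢
  obtain ⟨a, ha, rfl⟩ := hz
  obtain ⟨b, hb, rfl⟩ := hw
  refine ⟨fun j => a j + b j, ?_, ?_⟩
  · intro j hj
    have := ha j hj
    have := hb j hj
    simp only
    omega
  · rw [← Finset.sum_add_distrib]
    refine Finset.sum_congr rfl fun j _ => ?_
    push_cast
    ring

/-- the logarithm of the number of digit sums -/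
noncomputable def uu (r : ℂ) (k n : ℕ) : ℝ := Real.log (digs r (2 ^ k) n).card

lemma two_pow_pos (k : ℕ) : 0 < 2 ^ k := by positivity

lemma uu_nonneg (r : ℂ) (k n : ℕ) : 0 ≤ uu r k n := by
  unfold uu
  apply Real.log_nonneg
  exact_mod_cast card_digs_pos r (two_pow_pos k) n

lemma uu_le (r : ℂ) (k n : ℕ) : uu r k n ≤ k * n := by
  unfold uu
  have h1 : ((digs r (2 ^ k) n).card : ℝ) ≤ ((2 : ℝ) ^ k) ^ n := by
    exact_mod_cast card_digs_le r (2 ^ k) n
  have h0 : (0 : ℝ) < (digs r (2 ^ k) n).card := by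
    exact_mod_cast card_digs_pos r (two_pow_pos k) n
  have h2 := Real.log_le_log h0 h1
  rw [← pow_mul, Real.log_pow] at h2
  have h3 : Real.log 2 ≤ 1 := by
    have := Real.log_two_lt_d9
    linarith
  have h4 : (0 : ℝ) ≤ ((k * n : ℕ) : ℝ) := Nat.cast_nonneg _
  calc Real.log (digs r (2 ^ k) n).card ≤ ((k * n : ℕ) : ℝ) * Real.log 2 := h2
    _ ≤ ((k * n : ℕ) : ℝ) * 1 := mul_le_mul_of_nonneg_left h3 h4
    _ = k * n := by push_cast; ring

lemma uu_sub (r : ℂ) (k : ℕ) : Subadditive (uu r k) := by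
  intro m n
  unfold uu
  have h1 := card_digs_add r (2 ^ k) m n
  have h0 : (0 : ℝ) < (digs r (2 ^ k) (m + n)).card := by
    exact_mod_cast card_digs_pos r (two_pow_pos k) _
  have hm : (0 : ℝ) < (digs r (2 ^ k) m).card := by
    exact_mod_cast card_digs_pos r (two_pow_pos k) _
  have hn : (0 : ℝ) < (digs r (2 ^ k) n).card := by
    exact_mod_cast card_digs_pos r (two_pow_pos k) _
  rw [← Real.log_mul hm.ne' hn.ne']
  apply Real.log_le_log h0
  exact_mod_cast h1

lemma uu_bdd (r : ℂ) (k : ℕ) : BddBelow (Set.range fun n : ℕ => uu r k n / n) :=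
  ⟨0, by
    rintro _ ⟨n, rfl⟩
    exact div_nonneg (uu_nonneg r k n) (Nat.cast_nonneg _)⟩

lemma uu_mono (r : ℂ) (k n : ℕ) : uu r k n ≤ uu r (k + 1) n := by
  unfold uu
  apply Real.log_le_log
  · exact_mod_cast card_digs_pos r (two_pow_pos k) _
  · have := card_le_card (digs_mono_D r (show 2 ^ k ≤ 2 ^ (k + 1) by
      rw [pow_succ]; omega) n)
    exact_mod_cast this

theorem s_sharp (h : S_orbit) : S_sharp := by
  intro r hr hgrow ε hε
  obtain ⟨k0, hk0, hgrow⟩ := hgrow
  -- the limits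
  obtain ⟨Λ, hΛ⟩ : ∃ Λ : ℕ → ℝ, ∀ k, Λ k = (uu_sub r k).lim := ⟨_, fun _ => rfl⟩
  have hlim : ∀ k, Tendsto (fun n : ℕ => uu r k n / n) atTop (𝓝 (Λ k)) := fun k => by
    rw [hΛ]; exact (uu_sub r k).tendsto_lim (uu_bdd r k)
  have hle : ∀ k n : ℕ, n ≠ 0 → Λ k ≤ uu r k n / n := fun k n hn => by
    rw [hΛ]; exact (uu_sub r k).lim_le_div (uu_bdd r k) hn
  have hle' : ∀ k n : ℕ, Λ k * n ≤ uu r k n := by
    intro k n
    rcases Nat.eq_zero_or_pos n with h0 | h0
    · rw [h0, Nat.cast_zero, mul_zero]; exact uu_nonneg r k 0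
    · have h1 := hle k n h0.ne'
      rwa [le_div_iff₀ (by exact_mod_cast h0)] at h1
  have hΛk : ∀ k, Λ k ≤ k := by
    intro k
    have h1 := hle' k 1
    have h2 := uu_le r k 1
    rw [Nat.cast_one, mul_one] at h1 h2
    exact h1.trans h2
  have hΛmono : ∀ k, Λ k ≤ Λ (k + 1) := by
    intro k
    refine le_of_tendsto_of_tendsto' (hlim k) (hlim (k + 1)) fun n => ?_
    exact div_le_div_of_nonneg_right (uu_mono r k n) (Nat.cast_nonneg _)
  have hΛ1 : 0 < Λ 1 := by
    have h1 : Real.log 2 / k0 ≤ Λ 1 := by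
      have h2 : Tendsto (fun n : ℕ => uu r 1 (k0 * n) / ((k0 * n : ℕ) : ℝ)) atTop (𝓝 (Λ 1)) := by
        have h3 : Tendsto (fun n : ℕ => k0 * n) atTop atTop :=
          tendsto_id.const_mul_atTop' hk0
        exact (hlim 1).comp h3
      refine ge_of_tendsto h2 ?_
      filter_upwards [eventually_gt_atTop 0] with n hn
      have h4 : (n : ℝ) * Real.log 2 ≤ uu r 1 (k0 * n) := by
        unfold uu
        rw [← Real.log_pow]
        apply Real.log_le_log (by positivity)
        have := hgrow n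
        rw [pow_one]
        exact_mod_cast this
      have hk0' : (0 : ℝ) < k0 := by exact_mod_cast hk0
      have hn' : (0 : ℝ) < n := by exact_mod_cast hn
      push_cast
      rw [div_le_div_iff₀ hk0' (by positivity)]
      nlinarith
    have h2 : 0 < Real.log 2 / k0 := by
      have : 0 < Real.log 2 := Real.log_pos (by norm_num)
      have hk0' : (0 : ℝ) < k0 := by exact_mod_cast hk0
      positivity
    linarith
  have hΛpos : ∀ k, 0 < Λ (k + 1) := by
    intro k
    induction k with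
    | zero => exact hΛ1
    | succ k ih => exact ih.trans_le (hΛmono _)
  -- the parameter
  obtain ⟨η, hηdef⟩ : ∃ η : ℝ, η = min (ε / 8) (1 / 4) := ⟨_, rfl⟩
  have hη0 : 0 < η := by rw [hηdef]; exact lt_min (by linarith) (by norm_num)
  have hη4 : η ≤ 1 / 4 := by rw [hηdef]; exact min_le_right _ _
  have hηε : 8 * η ≤ ε := by
    have : η ≤ ε / 8 := by rw [hηdef]; exact min_le_left _ _
    linarith
  have hηprod : (1 + η) * (1 + η) * (1 + 2 * η) ≤ 1 + ε := by
    nlinarith [mul_nonneg hη0.le hη0.le, mul_nonneg (mul_nonneg hη0.le hη0.le) hη0.le,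
      mul_nonneg hη0.le (sub_nonneg.2 hη4), mul_nonneg (mul_nonneg hη0.le hη0.le) (sub_nonneg.2 hη4)]
  -- the level
  obtain ⟨k, hk⟩ : ∃ k : ℕ, Λ (k + 1 + 1) ≤ (1 + η) * Λ (k + 1) := by
    by_contra hcon
    push Not at hcon
    have h1 : ∀ k : ℕ, (1 + η) ^ k * Λ 1 ≤ Λ (k + 1) := by
      intro k
      induction k with
      | zero => simp
      | succ k ih =>
        have h2 := (hcon k).le
        have h3 := mul_le_mul_of_nonneg_left ih (show 0 ≤ 1 + η by linarith)
        rw [pow_succ]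
        linarith
    have h2 := tendsto_pow_const_div_const_pow_of_one_lt 1 (show 1 < 1 + η by linarith)
    have h3 : 0 < Λ 1 / (2 * (1 + η)) := by positivity
    obtain ⟨K, hK⟩ := ((h2.eventually (gt_mem_nhds h3)).and (eventually_ge_atTop 1)).exists
    obtain ⟨hK1, hK2⟩ := hK
    rw [div_lt_div_iff₀ (by positivity) (by positivity), pow_one] at hK1
    have h4 := h1 (K - 1)
    rw [Nat.sub_add_cancel hK2] at h4
    have h5 := hΛk K
    have h6 : (1 + η) ^ K = (1 + η) ^ (K - 1) * (1 + η) := by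
      rw [← pow_succ, Nat.sub_add_cancel hK2]
    rw [h6] at hK1
    have h7 : (0 : ℝ) ≤ K := Nat.cast_nonneg _
    have h8 : (K : ℝ) * (2 * (1 + η)) ≤ K * (1 + η) := by
      calc (K : ℝ) * (2 * (1 + η)) ≤ Λ 1 * ((1 + η) ^ (K - 1) * (1 + η)) := hK1.le
        _ = ((1 + η) ^ (K - 1) * Λ 1) * (1 + η) := by ring
        _ ≤ K * (1 + η) := mul_le_mul_of_nonneg_right (h4.trans h5) (by linarith)
    have h9 : (1 : ℝ) ≤ K := by exact_mod_cast hK2
    nlinarith
  obtain ⟨q, hq⟩ : ∃ q, q = k + 1 := ⟨_, rfl⟩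
  rw [← hq] at hk
  have hΛq : 0 < Λ q := by rw [hq]; exact hΛpos k
  have hΛq1 : 0 < Λ (q + 1) := hΛpos q
  refine ⟨3 * q / η, fun N => ?_⟩
  -- choice of n
  have ev1 : ∀ᶠ n : ℕ in atTop, uu r (q + 1) n ≤ (1 + η) * Λ (q + 1) * n := by
    have h1 : Λ (q + 1) < (1 + η) * Λ (q + 1) := by nlinarith
    filter_upwards [(hlim (q + 1)).eventually (gt_mem_nhds h1), eventually_gt_atTop 0] with n hn hn0
    rw [div_lt_iff₀ (by exact_mod_cast hn0)] at hn
    exact hn.le
  obtain ⟨n1, hn1⟩ := eventually_atTop.1 ev1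
  obtain ⟨n2, hn2⟩ := exists_nat_gt (Real.log (max N 2) / Λ q)
  obtain ⟨n3, hn3⟩ := exists_nat_gt (1 / η)
  obtain ⟨n, hn⟩ : ∃ n, n = n1 + n2 + n3 + 1 := ⟨_, rfl⟩
  have hnn1 : n1 ≤ n := by omega
  have hnn2 : (n2 : ℝ) ≤ n := by exact_mod_cast (by omega : n2 ≤ n)
  have hnn3 : (n3 : ℝ) ≤ n := by exact_mod_cast (by omega : n3 ≤ n)
  have hηn : 1 ≤ η * n := by
    rw [div_lt_iff₀ hη0] at hn3
    nlinarith
  have hnpos : (0 : ℝ) < n := by exact_mod_cast (by omega : 0 < n)
  obtain ⟨m, hm⟩ : ∃ m, m = ⌊η * n⌋₊ + 1 := ⟨_, rfl⟩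
  have hm1 : η * n ≤ m := by
    rw [hm]; push_cast; exact (Nat.lt_floor_add_one _).le
  have hm2 : (m : ℝ) ≤ 2 * (η * n) := by
    rw [hm]; push_cast
    have := Nat.floor_le (show 0 ≤ η * n by linarith)
    linarith
  have hm0 : 0 < m := by omega
  have hm0' : (0 : ℝ) < m := by exact_mod_cast hm0
  -- the set
  obtain ⟨S, hS⟩ : ∃ S, S = digs r (2 ^ q) n := ⟨_, rfl⟩
  obtain ⟨A, hA⟩ : ∃ A : Finset ℂ, A = (range m).biUnion fun i => S.image fun z => r ^ i * z :=
    ⟨_, rfl⟩
  have hSA : S ⊆ A := by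
    intro z hz
    rw [hA, mem_biUnion]
    exact ⟨0, mem_range.2 hm0, mem_image.2 ⟨z, hz, by rw [pow_zero, one_mul]⟩⟩
  have hAD : A ⊆ digs r (2 ^ q) (n + m) := by
    intro z hz
    rw [hA, mem_biUnion] at hz
    obtain ⟨i, hi, hz⟩ := hz
    rw [mem_image] at hz
    obtain ⟨w, hw, rfl⟩ := hz
    rw [mem_range] at hi
    rw [hS] at hw
    exact shift_digs r (two_pow_pos q) hi.le hw
  have hAA : A + A ⊆ digs r (2 ^ (q + 1)) (n + m) := by
    intro z hz
    rw [Finset.mem_add] at hz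
    obtain ⟨a, ha, b, hb, rfl⟩ := hz
    rw [pow_succ, mul_comm]
    exact add_digs r (hAD ha) (hAD hb)
  have hSpos : (0 : ℝ) < S.card := by
    rw [hS]; exact_mod_cast card_digs_pos r (two_pow_pos q) n
  have hlogS : Real.log S.card = uu r q n := by rw [hS]; rfl
  have hSA' : (S.card : ℝ) ≤ A.card := by exact_mod_cast card_le_card hSA
  have hApos : (0 : ℝ) < A.card := hSpos.trans_le hSA'
  have hlogSA : uu r q n ≤ Real.log A.card := by
    rw [← hlogS]; exact Real.log_le_log hSpos hSA'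
  have hbig : Real.log (max N 2) < Real.log A.card := by
    rw [div_lt_iff₀ hΛq] at hn2
    have h1 := hle' q n
    nlinarith
  have hmax2 : (2 : ℝ) ≤ max (N : ℝ) 2 := le_max_right _ _
  have hcardA : max (N : ℝ) 2 < A.card := by
    rwa [Real.log_lt_log_iff (by linarith) hApos] at hbig
  refine ⟨A, ?_, ?_, ?_⟩
  · have : (N : ℝ) ≤ A.card := (le_max_left _ _).trans hcardA.le
    exact_mod_cast this
  · -- almost invariance
    have h1 := h r S m hr hm0
    rw [← hA] at h1
    have h1' : (m : ℝ) * ((A ∪ A.image fun a => r * a).card : ℝ) ≤ (m + 1) * A.card := by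
      exact_mod_cast h1
    have hlogA0 : 0 < Real.log A.card := Real.log_pos (by linarith)
    have hlogA : Real.log A.card ≤ 3 * q / η * m := by
      have h2 : Real.log A.card ≤ uu r q (n + m) := by
        unfold uu
        apply Real.log_le_log hApos
        exact_mod_cast card_le_card hAD
      have h3 := uu_le r q (n + m)
      push_cast at h3
      have hq0 : (0 : ℝ) ≤ q := Nat.cast_nonneg _
      have h4 : (n : ℝ) + m ≤ 3 * n := by nlinarith
      have h5 : (q : ℝ) * (n + m) ≤ 3 * q * n := by nlinarith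
      have h6 : 3 * (q : ℝ) * n ≤ 3 * q / η * m := by
        rw [div_mul_eq_mul_div, le_div_iff₀ hη0]
        nlinarith
      linarith
    have h2 : (1 : ℝ) / m ≤ 3 * q / η / Real.log A.card := by
      rw [div_le_div_iff₀ hm0' hlogA0]
      linarith
    have h3 : ((A ∪ A.image fun a => r * a).card : ℝ) ≤ (1 + 1 / m) * A.card := by
      rw [← mul_le_mul_iff_right₀ hm0']
      calc (m : ℝ) * ((A ∪ A.image fun a => r * a).card : ℝ) ≤ (m + 1) * A.card := h1'
        _ = m * ((1 + 1 / m) * A.card) := by field_simp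
    refine h3.trans (mul_le_mul_of_nonneg_right ?_ hApos.le)
    linarith
  · -- the sumset
    have hAApos : (0 : ℝ) < (A + A).card := by
      have hne : A.Nonempty := card_pos.1 (by exact_mod_cast hApos)
      exact_mod_cast card_pos.2 (hne.add hne)
    have h1 : Real.log (A + A).card ≤ (1 + ε) * Real.log A.card := by
      have h2 : Real.log (A + A).card ≤ uu r (q + 1) (n + m) := by
        unfold uu
        apply Real.log_le_log hAApos
        exact_mod_cast card_le_card hAA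
      have h3 := hn1 (n + m) (by omega)
      push_cast at h3
      have h4 : (n : ℝ) + m ≤ (1 + 2 * η) * n := by linarith
      have h5 := hle' q n
      calc Real.log (A + A).card ≤ (1 + η) * Λ (q + 1) * (n + m) := h2.trans h3
        _ ≤ (1 + η) * ((1 + η) * Λ q) * ((1 + 2 * η) * n) := by
            apply mul_le_mul _ h4 (by positivity) (by positivity)
            exact mul_le_mul_of_nonneg_left hk (by linarith)
        _ = ((1 + η) * (1 + η) * (1 + 2 * η)) * (Λ q * n) := by ring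
        _ ≤ (1 + ε) * (Λ q * n) := mul_le_mul_of_nonneg_right hηprod (by positivity)
        _ ≤ (1 + ε) * Real.log A.card :=
            mul_le_mul_of_nonneg_left (h5.trans hlogSA) (by linarith)
    rw [Real.rpow_def_of_pos hApos, ← Real.log_le_iff_le_exp hAApos]
    linarith

end Pool.Agent.H339.AKSharp
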