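import Pool.Agent.H979.FR.Stm

set_option autoImplicit false

open Finset
open Pool.Agent.H979.FR

/-!
# Project FR (helper979): two-step boundary versus vertex boundary
-/

namespace Pool.Agent.H339

theorem fr_bd2 (hS : S_SYM) : S_BD2 := by
  classical
  intro V G _ d hd hdeg A hA
  obtain ⟨s0, s1, s2, s3, s4⟩ := hS V G d hd hdeg
  have hd' : (0 : ℝ) < d := by exact_mod_cast hd
  have hfin : (outerBd G A).Finite := by
    refine (A.finite_toSet.biUnion fun x _ => (G.neighborFinset x).finite_toSet).subset ?_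
    rintro y ⟨_, x, hx, hxy⟩
    rw [Set.mem_iUnion₂]
    refine ⟨x, hx, ?_⟩
    rw [Finset.mem_coe, SimpleGraph.mem_neighborFinset]
    exact hxy
  let D : Finset V := hfin.toFinset
  have hD : ∀ y, y ∈ D ↔ y ∈ outerBd G A := fun y => hfin.mem_toFinset
  have hcard : ((outerBd G A).ncard : ℝ) = D.card := by
    rw [Set.ncard_eq_toFinset_card _ hfin]
  have hdis : Disjoint A D := by
    rw [Finset.disjoint_left]
    intro y hy hy2
    exact ((hD y).1 hy2).1 hy
  -- one step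
  have hone : ∀ x y, G.Adj x y → 1 / (d : ℝ) ≤ pn G 1 x y := by
    intro x y hxy
    have h1 : pn G 1 x y = (∑ z ∈ G.neighborFinset x, pn G 0 z y) / (G.degree x : ℝ) := rfl
    rw [h1, hdeg x]
    apply div_le_div_of_nonneg_right _ hd'.le
    have h2 : pn G 0 y y = 1 := if_pos rfl
    rw [← h2]
    exact Finset.single_le_sum (f := fun z => pn G 0 z y) (fun z _ => s0 0 z y)
      ((G.mem_neighborFinset x y).2 hxy)
  have htwo : ∀ x z y, G.Adj x z → G.Adj z y → 1 / (d : ℝ) ^ 2 ≤ pn G 2 x y := by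
    intro x z y hxz hzy
    have h1 : pn G 2 x y = (∑ z ∈ G.neighborFinset x, pn G 1 z y) / (G.degree x : ℝ) := rfl
    rw [h1, hdeg x]
    have h2 : 1 / (d : ℝ) ^ 2 = 1 / d / d := by rw [sq, div_div]
    rw [h2]
    apply div_le_div_of_nonneg_right _ hd'.le
    exact (hone z y hzy).trans (Finset.single_le_sum (f := fun z => pn G 1 z y)
      (fun z _ => s0 1 z y) ((G.mem_neighborFinset x z).2 hxz))
  have h1 : ∀ x ∈ A, ∑ y ∈ D, pn G 2 x y ≤ 1 - ∑ y ∈ A, pn G 2 x y := by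
    intro x _
    have h2 : ∑ y ∈ A ∪ D, pn G 2 x y ≤ 1 :=
      sum_le_hasSum _ (fun y _ => s0 2 x y) (s2 2 x)
    rw [Finset.sum_union hdis] at h2
    linarith
  have h2 : ∑ y ∈ D, ∑ x ∈ A, pn G 2 x y ≤ (A.card : ℝ) - ∑ x ∈ A, ∑ y ∈ A, pn G 2 x y := by
    rw [Finset.sum_comm]
    have h3 := Finset.sum_le_sum h1
    rw [Finset.sum_sub_distrib, Finset.sum_const, nsmul_eq_mul, mul_one] at h3
    exact h3
  refine le_trans ?_ h2
  have h3 : ∀ y ∈ D, 1 / (d : ℝ) ^ 2 ≤ ∑ x ∈ A, pn G 2 x y := by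
    intro y hy
    obtain ⟨_, x, hx, hxy⟩ := (hD y).1 hy
    obtain ⟨x', hx', hxx'⟩ := hA x hx
    exact (htwo x' x y hxx'.symm hxy).trans (Finset.single_le_sum (f := fun x => pn G 2 x y)
      (fun x _ => s0 2 x y) hx')
  have h4 := Finset.sum_le_sum h3
  rw [Finset.sum_const, nsmul_eq_mul] at h4
  rw [hcard, div_eq_mul_one_div]
  exact h4

end Pool.Agent.H339
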