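import Pool.Agent.H979.FR.Stm

set_option autoImplicit false

open Finset
open Pool.Agent.H979.FR

/-!
# Project FR (helper979): the return weights of a finite set do not increase
-/

namespace Pool.Agent.H339

/-- A convergent sum whose terms vanish outside a finite set. -/
theorem fr_fin_sum {V : Type} {f : V → ℝ} {a : ℝ} (h : HasSum f a) (T : Finset V)
    (hT : ∀ z, z ∉ T → f z = 0) : a = ∑ z ∈ T, f z :=
  h.unique (hasSum_sum_of_ne_finset_zero hT)

theorem fr_mon (hS : S_SYM) : S_MON := by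
  classical
  intro V G _ d hd hdeg A n hn
  obtain ⟨s0, s1, s2, s3, s4⟩ := hS V G d hd hdeg
  have hd' : (0 : ℝ) < d := by exact_mod_cast hd
  -- the energy as a sum over a finite set
  have henergy : ∀ (m : ℕ) (T : Finset V), (∀ z, z ∉ T → ∀ x ∈ A, pn G m z x = 0) →
      ∑ x ∈ A, ∑ y ∈ A, pn G (2 * m) x y = ∑ z ∈ T, (∑ x ∈ A, pn G m z x) ^ 2 := by
    intro m T hT
    have h1 : ∀ x ∈ A, ∀ y ∈ A, pn G (2 * m) x y = ∑ z ∈ T, pn G m z x * pn G m z y := by
      intro x hx y hy
      have h2 := s3 m m x y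
      rw [← two_mul] at h2
      rw [fr_fin_sum h2 T (fun z hz => by rw [hT z hz y hy, mul_zero])]
      exact Finset.sum_congr rfl fun z _ => by rw [s1 m x z]
    calc ∑ x ∈ A, ∑ y ∈ A, pn G (2 * m) x y
        = ∑ x ∈ A, ∑ y ∈ A, ∑ z ∈ T, pn G m z x * pn G m z y :=
          Finset.sum_congr rfl fun x hx => Finset.sum_congr rfl fun y hy => h1 x hx y hy
      _ = ∑ x ∈ A, ∑ z ∈ T, ∑ y ∈ A, pn G m z x * pn G m z y :=
          Finset.sum_congr rfl fun x _ => Finset.sum_comm
      _ = ∑ z ∈ T, ∑ x ∈ A, ∑ y ∈ A, pn G m z x * pn G m z y := Finset.sum_comm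
      _ = ∑ z ∈ T, (∑ x ∈ A, pn G m z x) ^ 2 := by
          refine Finset.sum_congr rfl fun z _ => ?_
          rw [sq, Finset.sum_mul_sum]
  -- supports
  have hsupp : ∀ m : ℕ, {z | ∃ x ∈ A, pn G m z x ≠ 0}.Finite := by
    intro m
    refine (A.finite_toSet.biUnion fun x _ => s4 m x).subset ?_
    rintro z ⟨x, hx, hz⟩
    rw [Set.mem_iUnion₂]
    refine ⟨x, hx, ?_⟩
    show pn G m x z ≠ 0
    rwa [s1 m x z]
  have hstep : ∀ m : ℕ, ∑ x ∈ A, ∑ y ∈ A, pn G (2 * (m + 1)) x y ≤
      ∑ x ∈ A, ∑ y ∈ A, pn G (2 * m) x y := by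
    intro m
    let T : Finset V := (hsupp m).toFinset ∪ (hsupp (m + 1)).toFinset
    have hT1 : ∀ z, z ∉ T → ∀ x ∈ A, pn G m z x = 0 := by
      intro z hz x hx
      by_contra h
      exact hz (Finset.mem_union_left _ ((hsupp m).mem_toFinset.2 ⟨x, hx, h⟩))
    have hT2 : ∀ z, z ∉ T → ∀ x ∈ A, pn G (m + 1) z x = 0 := by
      intro z hz x hx
      by_contra h
      exact hz (Finset.mem_union_right _ ((hsupp (m + 1)).mem_toFinset.2 ⟨x, hx, h⟩))
    rw [henergy m T hT1, henergy (m + 1) T hT2]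
    set h : V → ℝ := fun z => ∑ x ∈ A, pn G m z x with hh
    have hh0 : ∀ z, z ∉ T → h z = 0 := fun z hz => Finset.sum_eq_zero fun x hx => hT1 z hz x hx
    have h1 : ∀ z, ∑ x ∈ A, pn G (m + 1) z x = (∑ w ∈ G.neighborFinset z, h w) / d := by
      intro z
      have h2 : ∀ x ∈ A, pn G (m + 1) z x = (∑ w ∈ G.neighborFinset z, pn G m w x) / d := by
        intro x _
        show (∑ w ∈ G.neighborFinset z, pn G m w x) / (G.degree z : ℝ) = _
        rw [hdeg z]
      rw [Finset.sum_congr rfl h2, ← Finset.sum_div, Finset.sum_comm]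
    have h2 : ∀ z, (∑ x ∈ A, pn G (m + 1) z x) ^ 2 ≤
        (∑ w ∈ T, if G.Adj z w then h w ^ 2 else 0) / d := by
      intro z
      rw [h1 z, div_pow, div_le_div_iff₀ (by positivity) hd']
      have h3 : (∑ w ∈ G.neighborFinset z, h w) ^ 2 ≤ d * ∑ w ∈ G.neighborFinset z, h w ^ 2 := by
        have h4 := sq_sum_le_card_mul_sum_sq (s := G.neighborFinset z) (f := h)
        rwa [G.card_neighborFinset_eq_degree, hdeg z] at h4
      have h5 : ∑ w ∈ G.neighborFinset z, h w ^ 2 = ∑ w ∈ T, if G.Adj z w then h w ^ 2 else 0 := by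
        rw [← Finset.sum_filter]
        symm
        apply Finset.sum_subset
        · intro w hw
          rw [SimpleGraph.mem_neighborFinset]
          exact (Finset.mem_filter.1 hw).2
        · intro w hw hw2
          rw [SimpleGraph.mem_neighborFinset] at hw
          have h6 : w ∉ T := fun hwT => hw2 (Finset.mem_filter.2 ⟨hwT, hw⟩)
          rw [hh0 w h6]
          ring
      rw [← h5]
      nlinarith [h3, hd']
    calc ∑ z ∈ T, (∑ x ∈ A, pn G (m + 1) z x) ^ 2
        ≤ ∑ z ∈ T, (∑ w ∈ T, if G.Adj z w then h w ^ 2 else 0) / d :=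
          Finset.sum_le_sum fun z _ => h2 z
      _ = (∑ w ∈ T, ∑ z ∈ T, if G.Adj z w then h w ^ 2 else 0) / d := by
          rw [← Finset.sum_div, Finset.sum_comm]
      _ ≤ (∑ w ∈ T, d * h w ^ 2) / d := by
          apply div_le_div_of_nonneg_right _ hd'.le
          refine Finset.sum_le_sum fun w _ => ?_
          rw [← Finset.sum_filter, Finset.sum_const, nsmul_eq_mul]
          apply mul_le_mul_of_nonneg_right _ (sq_nonneg _)
          have h3 : (T.filter fun z => G.Adj z w).card ≤ d := by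
            rw [← hdeg w, ← G.card_neighborFinset_eq_degree]
            apply Finset.card_le_card
            intro z hz
            rw [SimpleGraph.mem_neighborFinset]
            exact (Finset.mem_filter.1 hz).2.symm
          exact_mod_cast h3
      _ = ∑ z ∈ T, h z ^ 2 := by
          rw [← Finset.mul_sum]
          field_simp
  have hall : ∀ m : ℕ, ∑ x ∈ A, ∑ y ∈ A, pn G (2 * (m + 1)) x y ≤
      ∑ x ∈ A, ∑ y ∈ A, pn G 2 x y := by
    intro m
    induction m with
    | zero => exact le_refl _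
    | succ m ih => exact (hstep (m + 1)).trans ih
  obtain ⟨m, rfl⟩ : ∃ m, n = m + 1 := ⟨n - 1, by omega⟩
  exact hall m

end Pool.Agent.H339
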